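import Mathlib
import Pool.Agent.X124.Alg

/-!
# MP_6d7a61_nt, Q1: `(m, n)` is admissible if and only if `m ≥ 2`

* For `m = 1` a Baire category argument produces an open set on which `f(A)` stays in the closed set
  of row vectors that are not approximable to a fixed order; this set is crossed by no rational
  hyperplane, so that every entry of `f` would be constant on a connected open set.
* For `m ≥ 2` the map `f(A) = A₁₁ B`, with `B` the matrix of the powers `α^k`, `0 ≤ k < mn`, of
  `α = 2^(1/mn)`, avoids the Liouville matrices, by Liouville's inequality.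
-/

namespace Pool.Agent.Results.MP_6d7a61_nt.AdmissiblePairs

open Polynomial

/-- Liouville matrices.  (1) no exact integer relation; (2) for every `N > 0` there are integer
vectors `p`, `q` with `‖q‖ ≥ 2` and `‖A q - p‖ < ‖q‖^(-N)` (sup norms).  As in the definition of
Liouville numbers, `‖q‖ ≥ 2` is required; for `‖q‖ = 1` the inequality holds trivially. -/
def IsLiouvilleMatrix {m n : ℕ} (A : Matrix (Fin m) (Fin n) ℝ) : Prop :=
  (∀ (q : Fin n → ℤ) (p : Fin m → ℤ), (q ≠ 0 ∨ p ≠ 0) →
    A.mulVec (fun j => (q j : ℝ)) ≠ fun i => (p i : ℝ)) ∧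
  (∀ N : ℝ, 0 < N → ∃ (p : Fin m → ℤ) (q : Fin n → ℤ), 2 ≤ ‖(fun j => (q j : ℝ))‖ ∧
    ‖A.mulVec (fun j => (q j : ℝ)) - (fun i => (p i : ℝ))‖ < ‖(fun j => (q j : ℝ))‖ ^ (-N))

/-- Nowhere constant: constant on no non-empty open set. -/
def NowhereConstant {m n : ℕ} (g : Matrix (Fin m) (Fin n) ℝ → ℝ) : Prop :=
  ∀ U : Set (Matrix (Fin m) (Fin n) ℝ), IsOpen U → U.Nonempty → ¬ ∃ c : ℝ, ∀ A ∈ U, g A = c

/-- The LIC property. -/
def LIC {m n : ℕ} (f : Matrix (Fin m) (Fin n) ℝ → Matrix (Fin m) (Fin n) ℝ) : Prop :=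
  ∀ Ω : Set (Matrix (Fin m) (Fin n) ℝ), (interior Ω).Nonempty →
    ¬ ∃ (p : Fin m → ℤ) (q : Fin n → ℤ), q ≠ 0 ∧
      ∀ B ∈ f '' Ω, B.mulVec (fun j => (q j : ℝ)) = fun i => (p i : ℝ)

/-- Strongly nowhere constant maps. -/
def StronglyNowhereConstant {m n : ℕ}
    (f : Matrix (Fin m) (Fin n) ℝ → Matrix (Fin m) (Fin n) ℝ) : Prop :=
  ∀ (R₁ : Matrix (Fin m) (Fin m) ℚ) (R₂ : Matrix (Fin n) (Fin n) ℚ)
    (T : Matrix (Fin m) (Fin n) ℚ), IsUnit R₁ → IsUnit R₂ → ∀ i j,
      NowhereConstant (fun A => (R₁.map (fun x : ℚ => (x : ℝ)) * f A *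
        R₂.map (fun x : ℚ => (x : ℝ)) + T.map (fun x : ℚ => (x : ℝ))) i j)

/-- Admissible pairs. -/
def Admissible (m n : ℕ) : Prop :=
  ∃ f : Matrix (Fin m) (Fin n) ℝ → Matrix (Fin m) (Fin n) ℝ,
    Continuous f ∧ StronglyNowhereConstant f ∧ LIC f ∧ ∀ A, ¬ IsLiouvilleMatrix (f A)

/-! ### The case `m = 1` -/

lemma mulVec_single {n : ℕ} (B : Matrix (Fin 1) (Fin n) ℝ) (j : Fin n) (k : ℤ) :
    B.mulVec (fun i => ((Pi.single j k : Fin n → ℤ) i : ℝ)) 0 = k * B 0 j := by
  have h : B.mulVec (fun i => ((Pi.single j k : Fin n → ℤ) i : ℝ)) 0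
      = ∑ i, B 0 i * ((Pi.single j k : Fin n → ℤ) i : ℝ) := rfl
  rw [h, Finset.sum_eq_single j]
  · simp; ring
  · intro i _ hi; simp [Pi.single_eq_of_ne hi]
  · intro h; exact absurd (Finset.mem_univ j) h

lemma not_admissible_one {n : ℕ} (hn : 1 ≤ n) : ¬ Admissible 1 n := by
  rintro ⟨f, hf, hS, hLIC, hL⟩
  have : BaireSpace (Matrix (Fin 1) (Fin n) ℝ) := inferInstanceAs (BaireSpace (Fin 1 → Fin n → ℝ))
  have : LocallyConnectedSpace (Matrix (Fin 1) (Fin n) ℝ) :=
    inferInstanceAs (LocallyConnectedSpace (Fin 1 → Fin n → ℝ))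
  have : Nonempty (Matrix (Fin 1) (Fin n) ℝ) := ⟨0⟩
  -- the closed sets
  set C : ((Fin n → ℤ) × (Fin 1 → ℤ)) ⊕ ℕ → Set (Matrix (Fin 1) (Fin n) ℝ) := fun s =>
    match s with
    | Sum.inl (q, p) => {A | (q ≠ 0 ∨ p ≠ 0) ∧
        (f A).mulVec (fun j => (q j : ℝ)) = fun i => (p i : ℝ)}
    | Sum.inr N => {A | ∀ (p : Fin 1 → ℤ) (q : Fin n → ℤ), 2 ≤ ‖(fun j => (q j : ℝ))‖ →
        ‖(fun j => (q j : ℝ))‖ ^ (-(N : ℝ)) ≤
          ‖(f A).mulVec (fun j => (q j : ℝ)) - (fun i => (p i : ℝ))‖} with hC
  have hcont : ∀ q : Fin n → ℤ, Continuous (fun A => (f A).mulVec (fun j => (q j : ℝ))) := by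
    intro q
    exact hf.matrix_mulVec continuous_const
  have hclosed : ∀ s, IsClosed (C s) := by
    rintro (⟨q, p⟩ | N)
    · by_cases h : q ≠ 0 ∨ p ≠ 0
      · have : C (Sum.inl (q, p)) =
            {A | (f A).mulVec (fun j => (q j : ℝ)) = fun i => (p i : ℝ)} := by
          ext A; exact ⟨fun hA => hA.2, fun hA => ⟨h, hA⟩⟩
        rw [this]
        exact isClosed_eq (hcont q) continuous_const
      · have : C (Sum.inl (q, p)) = ∅ := by
          ext A; exact ⟨fun hA => (h hA.1).elim, fun hA => hA.elim⟩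
        rw [this]; exact isClosed_empty
    · have : C (Sum.inr N) = ⋂ (p : Fin 1 → ℤ) (q : Fin n → ℤ)
          (_ : 2 ≤ ‖(fun j => (q j : ℝ))‖), {A | ‖(fun j => (q j : ℝ))‖ ^ (-(N : ℝ)) ≤
          ‖(f A).mulVec (fun j => (q j : ℝ)) - (fun i => (p i : ℝ))‖} := by
        ext A
        simp only [Set.mem_iInter]
        exact Iff.rfl
      rw [this]
      refine isClosed_iInter fun p => isClosed_iInter fun q => isClosed_iInter fun _ => ?_
      exact isClosed_le continuous_const (((hcont q).sub continuous_const).norm)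
  have hcover : ⋃ s, C s = Set.univ := by
    rw [Set.eq_univ_iff_forall]
    intro A
    rw [Set.mem_iUnion]
    have h := hL A
    unfold IsLiouvilleMatrix at h
    rw [not_and_or] at h
    rcases h with h | h
    · push Not at h
      obtain ⟨q, p, hqp, heq⟩ := h
      exact ⟨Sum.inl (q, p), hqp, heq⟩
    · push Not at h
      obtain ⟨N, hN, h⟩ := h
      obtain ⟨N', hN'⟩ := exists_nat_ge N
      refine ⟨Sum.inr N', fun p q hq => (?_ : _ ≤ _).trans (h p q hq)⟩
      exact Real.rpow_le_rpow_of_exponent_le (by linarith) (by linarith)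
  obtain ⟨s, hs⟩ := nonempty_interior_of_iUnion_of_closed hclosed hcover
  rcases s with ⟨q, p⟩ | N
  · by_cases hq : q = 0
    · obtain ⟨A, hA⟩ := hs
      have hA' := interior_subset hA
      obtain ⟨h1, h2⟩ := hA'
      rcases h1 with h1 | h1
      · exact h1 hq
      · apply h1
        have h3 : (fun j => ((q j : ℤ) : ℝ)) = 0 := by rw [hq]; funext j; simp
        rw [h3, Matrix.mulVec_zero] at h2
        funext i
        have := congrFun h2 i
        simp only [Pi.zero_apply] at this ⊢
        exact_mod_cast this.symm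
    · apply hLIC _ hs
      refine ⟨p, q, hq, ?_⟩
      rintro B ⟨A, hA, rfl⟩
      exact hA.2
  · obtain ⟨A₀, hA₀⟩ := hs
    obtain ⟨V, hVW, hVo, hV0, hVc⟩ := locallyConnectedSpace_iff_subsets_isOpen_isConnected.1
      inferInstance A₀ (interior (C (Sum.inr N))) (isOpen_interior.mem_nhds hA₀)
    -- the entry function `A ↦ f(A)_{0 j}` is not constant on `V`
    set j : Fin n := ⟨0, by omega⟩ with hj
    have hnc := hS 1 1 0 isUnit_one isUnit_one 0 j V hVo ⟨A₀, hV0⟩
    have hone1 : (1 : Matrix (Fin 1) (Fin 1) ℚ).map (fun x : ℚ => (x : ℝ)) = 1 := by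
      rw [Matrix.map_one] <;> simp
    have hone2 : (1 : Matrix (Fin n) (Fin n) ℚ).map (fun x : ℚ => (x : ℝ)) = 1 := by
      rw [Matrix.map_one] <;> simp
    have hzero : (0 : Matrix (Fin 1) (Fin n) ℚ).map (fun x : ℚ => (x : ℝ)) = 0 := by
      rw [Matrix.map_zero]; simp
    rw [hone1, hone2, hzero] at hnc
    simp only [add_zero, Matrix.one_mul, Matrix.mul_one] at hnc
    push Not at hnc
    obtain ⟨B₀, hB₀, hne⟩ := hnc (f A₀ 0 j)
    -- order the two values
    obtain ⟨A, hA, B, hB, hlt⟩ : ∃ A ∈ V, ∃ B ∈ V, f A 0 j < f B 0 j := by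
      rcases lt_or_gt_of_ne hne with h | h
      · exact ⟨B₀, hB₀, A₀, hV0, h⟩
      · exact ⟨A₀, hV0, B₀, hB₀, h⟩
    -- choose the multiplier
    obtain ⟨k, hk⟩ := exists_nat_gt (1 / (f B 0 j - f A 0 j))
    have hpos : 0 < f B 0 j - f A 0 j := by linarith
    set k' : ℕ := k + 2 with hk'
    have hk1 : 1 < (k' : ℝ) * (f B 0 j - f A 0 j) := by
      rw [div_lt_iff₀ hpos] at hk
      rw [hk']; push_cast
      nlinarith
    set p : ℤ := ⌊(k' : ℝ) * f A 0 j⌋ + 1 with hp
    have hp1 : (k' : ℝ) * f A 0 j < p := by rw [hp]; push_cast; exact Int.lt_floor_add_one _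
    have hp2 : (p : ℝ) < k' * f B 0 j := by
      have : (⌊(k' : ℝ) * f A 0 j⌋ : ℝ) ≤ k' * f A 0 j := Int.floor_le _
      rw [hp]; push_cast; nlinarith
    -- intermediate value theorem
    set g : Matrix (Fin 1) (Fin n) ℝ → ℝ := fun A => (k' : ℝ) * f A 0 j - p with hg
    have hgc : Continuous g := by
      have : Continuous (fun A => f A 0 j) := hf.matrix_elem 0 j
      exact (continuous_const.mul this).sub continuous_const
    have hivt := hVc.isPreconnected.intermediate_value hA hB hgc.continuousOn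
    have h0 : (0 : ℝ) ∈ Set.Icc (g A) (g B) := ⟨by simp only [hg]; linarith, by
      simp only [hg]; linarith⟩
    obtain ⟨D, hD, hD0⟩ := hivt h0
    have hDC := interior_subset (hVW hD)
    have hnorm : ‖(fun i => ((Pi.single j (k' : ℤ) : Fin n → ℤ) i : ℝ))‖ = k' := by
      have : (fun i => ((Pi.single j (k' : ℤ) : Fin n → ℤ) i : ℝ)) = Pi.single j (k' : ℝ) := by
        funext i
        by_cases hi : i = j
        · subst hi; simp
        · simp [Pi.single_eq_of_ne hi]
      rw [this, Pi.norm_single]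
      simp
    have h2 := hDC (fun _ => p) (Pi.single j (k' : ℤ)) (by
      rw [hnorm, hk']; push_cast; linarith [Nat.cast_nonneg (α := ℝ) k])
    have h3 : (f D).mulVec (fun i => ((Pi.single j (k' : ℤ) : Fin n → ℤ) i : ℝ)) -
        (fun _ : Fin 1 => (p : ℝ)) = 0 := by
      funext i
      have hi : i = 0 := Subsingleton.elim _ _
      subst hi
      rw [Pi.sub_apply, mulVec_single]
      simp only [hg] at hD0
      simp only [Pi.zero_apply]
      push_cast
      exact hD0
    rw [h3, norm_zero, hnorm] at h2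
    have h4 : 0 < (k' : ℝ) ^ (-(N : ℝ)) := Real.rpow_pos_of_pos (by rw [hk']; positivity) _
    linarith

/-! ### The case `m ≥ 2` -/

lemma coord_le {n : ℕ} (v : Fin n → ℝ) (i : Fin n) : |v i| ≤ ‖v‖ := by
  have := norm_le_pi_norm v i
  rwa [Real.norm_eq_abs] at this

lemma idx_lt {m n : ℕ} (i : Fin m) (j : Fin n) : i.1 * n + j.1 < m * n := by
  have h1 := i.2
  have h2 := j.2
  calc i.1 * n + j.1 < i.1 * n + n := by omega
    _ = (i.1 + 1) * n := by ring
    _ ≤ m * n := Nat.mul_le_mul_right n h1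

lemma idx_inj {m n : ℕ} {i i' : Fin m} {j j' : Fin n} (h : i.1 * n + j.1 = i'.1 * n + j'.1) :
    i = i' ∧ j = j' := by
  have hn : 0 < n := lt_of_le_of_lt (Nat.zero_le _) j.2
  have h1 : (i.1 * n + j.1) / n = i.1 := by
    rw [mul_comm, Nat.mul_add_div hn, Nat.div_eq_of_lt j.2, add_zero]
  have h2 : (i'.1 * n + j'.1) / n = i'.1 := by
    rw [mul_comm, Nat.mul_add_div hn, Nat.div_eq_of_lt j'.2, add_zero]
  have h3 : i.1 = i'.1 := by rw [← h1, ← h2, h]
  refine ⟨Fin.ext h3, Fin.ext ?_⟩
  rw [h3] at h; omega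

/-- the polynomial `∑ c_ij X^(i n + j)` -/
noncomputable def poly {R : Type} [CommRing R] {m n : ℕ} (c : Fin m → Fin n → R) : R[X] :=
  ∑ i, ∑ j, monomial (i.1 * n + j.1) (c i j)

lemma poly_coeff_idx {R : Type} [CommRing R] {m n : ℕ} (c : Fin m → Fin n → R) (i : Fin m)
    (j : Fin n) : (poly c).coeff (i.1 * n + j.1) = c i j := by
  unfold poly
  rw [finsetSum_coeff, Finset.sum_eq_single i]
  · rw [finsetSum_coeff, Finset.sum_eq_single j]
    · rw [coeff_monomial, if_pos rfl]
    · intro j' _ hj'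
      rw [coeff_monomial, if_neg]
      intro h
      exact hj' (idx_inj (i := i) (i' := i) h).2
    · intro h; exact absurd (Finset.mem_univ _) h
  · intro i' _ hi'
    rw [finsetSum_coeff]
    apply Finset.sum_eq_zero
    intro j' _
    rw [coeff_monomial, if_neg]
    intro h
    exact hi' (idx_inj h).1
  · intro h; exact absurd (Finset.mem_univ _) h

lemma poly_coeff_other {R : Type} [CommRing R] {m n : ℕ} (c : Fin m → Fin n → R) (l : ℕ)
    (h : ∀ (i : Fin m) (j : Fin n), i.1 * n + j.1 ≠ l) : (poly c).coeff l = 0 := by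
  unfold poly
  rw [finsetSum_coeff]
  apply Finset.sum_eq_zero
  intro i _
  rw [finsetSum_coeff]
  apply Finset.sum_eq_zero
  intro j _
  rw [coeff_monomial, if_neg (h i j)]

lemma poly_natDegree {R : Type} [CommRing R] {m n : ℕ} (hmn : 1 ≤ m * n) (c : Fin m → Fin n → R) :
    (poly c).natDegree < m * n := by
  have h : (poly c).natDegree ≤ m * n - 1 := by
    rw [natDegree_le_iff_coeff_eq_zero]
    intro l hl
    apply poly_coeff_other
    intro i j h
    have := idx_lt i j
    omega
  omega

lemma poly_ne_zero {R : Type} [CommRing R] {m n : ℕ} {c : Fin m → Fin n → R} (hc : c ≠ 0) :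
    poly c ≠ 0 := by
  intro h
  apply hc
  funext i j
  rw [← poly_coeff_idx c i j, h]
  simp

/-- the matrix `B` -/
def Bm (α : ℝ) (m n : ℕ) : Matrix (Fin m) (Fin n) ℝ := fun i j => α ^ (i.1 * n + j.1)

lemma aeval_poly_rat {m n : ℕ} (α : ℝ) (c : Fin m → Fin n → ℚ) :
    aeval α (poly c) = ∑ i, ∑ j, (c i j : ℝ) * Bm α m n i j := by
  unfold poly Bm
  rw [map_sum]
  apply Finset.sum_congr rfl
  intro i _
  rw [map_sum]
  apply Finset.sum_congr rfl
  intro j _
  rw [aeval_monomial]; simp

lemma aeval_poly_int {m n : ℕ} (α : ℝ) (c : Fin m → Fin n → ℤ) :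
    aeval α (poly c) = ∑ i, ∑ j, (c i j : ℝ) * Bm α m n i j := by
  unfold poly Bm
  rw [map_sum]
  apply Finset.sum_congr rfl
  intro i _
  rw [map_sum]
  apply Finset.sum_congr rfl
  intro j _
  rw [aeval_monomial]; simp

/-- On a non-empty open set the entry `A₀₀` takes two values. -/
lemma two_values {m n : ℕ} (i₀ : Fin m) (j₀ : Fin n) {U : Set (Matrix (Fin m) (Fin n) ℝ)}
    (hU : IsOpen U) (hne : U.Nonempty) : ∃ A ∈ U, ∃ B ∈ U, A i₀ j₀ ≠ B i₀ j₀ := by
  obtain ⟨A, hA⟩ := hne
  have hc : Continuous (fun t : ℝ => A + t • Matrix.single i₀ j₀ (1 : ℝ)) := by fun_prop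
  have h0 : (0 : ℝ) ∈ (fun t : ℝ => A + t • Matrix.single i₀ j₀ (1 : ℝ)) ⁻¹' U := by
    change A + (0 : ℝ) • _ ∈ U
    rw [zero_smul, add_zero]; exact hA
  obtain ⟨ε, hε, hball⟩ := Metric.isOpen_iff.1 (hU.preimage hc) 0 h0
  refine ⟨A, hA, A + (ε / 2) • Matrix.single i₀ j₀ (1 : ℝ), hball (by
    rw [Metric.mem_ball, Real.dist_eq, sub_zero, abs_of_pos (by linarith)]; linarith), ?_⟩
  rw [Matrix.add_apply, Matrix.smul_apply, Matrix.single_apply_same]
  intro h
  have : (ε / 2) • (1 : ℝ) = ε / 2 := by rw [smul_eq_mul, mul_one]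
  rw [this] at h
  linarith

/-- A matrix with a uniform power lower bound is not a Liouville matrix. -/
lemma not_liouville_of_bound {m n : ℕ} {M : Matrix (Fin m) (Fin n) ℝ} {c : ℝ} (hc : 0 < c) {E : ℕ}
    (h : ∀ (p : Fin m → ℤ) (q : Fin n → ℤ), 2 ≤ ‖(fun j => (q j : ℝ))‖ →
      c ≤ ‖(fun j => (q j : ℝ))‖ ^ E * ‖M.mulVec (fun j => (q j : ℝ)) - (fun i => (p i : ℝ))‖) :
    ¬ IsLiouvilleMatrix M := by
  rintro ⟨-, hL⟩
  obtain ⟨N, hN⟩ := exists_pow_lt_of_lt_one hc (show (1 / 2 : ℝ) < 1 by norm_num)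
  obtain ⟨p, q, hq, hlt⟩ := hL ((E + N + 1 : ℕ) : ℝ) (by positivity)
  have h1 := h p q hq
  set H := ‖(fun j => (q j : ℝ))‖ with hH
  have hH0 : 0 < H := by linarith
  rw [Real.rpow_neg hH0.le, Real.rpow_natCast] at hlt
  have h2 : H ^ E * ‖M.mulVec (fun j => (q j : ℝ)) - (fun i => (p i : ℝ))‖ <
      H ^ E * (H ^ (E + N + 1))⁻¹ := mul_lt_mul_of_pos_left hlt (by positivity)
  have h3 : H ^ E * (H ^ (E + N + 1))⁻¹ = (1 / H) ^ (N + 1) := by
    rw [show E + N + 1 = E + (N + 1) by ring, pow_add, div_pow, one_pow]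
    field_simp
  have h4 : (1 / H) ^ (N + 1) ≤ (1 / 2) ^ (N + 1) := by
    apply pow_le_pow_left₀ (by positivity)
    exact one_div_le_one_div_of_le (by norm_num) hq
  have h5 : ((1 : ℝ) / 2) ^ (N + 1) ≤ (1 / 2) ^ N :=
    pow_le_pow_of_le_one (by norm_num) (by norm_num) (by omega)
  linarith

lemma admissible_of_two_le {m n : ℕ} (hm : 2 ≤ m) (hn : 1 ≤ n) : Admissible m n := by
  have hmn : 1 ≤ m * n := Nat.one_le_iff_ne_zero.2 (by positivity)
  obtain ⟨α, K, κ, hα1, hα2, hαD, hK, hindQ, hLio⟩ := Pool.Agent.X124.Alg.exists_alpha (m * n) hmn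
  set B : Matrix (Fin m) (Fin n) ℝ := Bm α m n with hB
  have hB1 : ∀ i j, 1 ≤ B i j := fun i j => one_le_pow₀ hα1
  have hB2 : ∀ i j, B i j ≤ 2 := fun i j => by
    rw [hB]; unfold Bm
    calc α ^ (i.1 * n + j.1) ≤ α ^ (m * n) := pow_le_pow_right₀ hα1 (idx_lt i j).le
      _ = 2 := hαD
  have hindep : ∀ c : Fin m → Fin n → ℚ, c ≠ 0 → ∑ i, ∑ j, (c i j : ℝ) * B i j ≠ 0 := by
    intro c hc
    rw [← aeval_poly_rat]
    exact hindQ _ (poly_ne_zero hc) (poly_natDegree hmn c)
  have hbound : ∀ c : Fin m → Fin n → ℤ, c ≠ 0 → ∀ H : ℝ, 0 ≤ H → (∀ i j, |(c i j : ℝ)| ≤ H) →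
      1 ≤ K * H ^ κ * |∑ i, ∑ j, (c i j : ℝ) * B i j| := by
    intro c hc H hH0 hH
    rw [← aeval_poly_int]
    apply hLio _ (poly_ne_zero hc) (poly_natDegree hmn c)
    intro l
    by_cases hl : ∃ (i : Fin m) (j : Fin n), i.1 * n + j.1 = l
    · obtain ⟨i, j, rfl⟩ := hl
      rw [poly_coeff_idx]
      exact_mod_cast hH i j
    · push Not at hl
      rw [poly_coeff_other c l hl]
      simpa using hH0
  set i₀ : Fin m := ⟨0, by omega⟩ with hi₀
  set i₁ : Fin m := ⟨1, by omega⟩ with hi₁
  have hi01 : i₀ ≠ i₁ := by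
    intro h; rw [hi₀, hi₁] at h; simp at h
  set j₀ : Fin n := ⟨0, by omega⟩ with hj₀
  -- the row values
  have hrow : ∀ (q : Fin n → ℤ), q ≠ 0 → ∀ H : ℝ, 0 ≤ H → (∀ j, |(q j : ℝ)| ≤ H) →
      1 ≤ K * H ^ κ * |∑ j, (q j : ℝ) * B i₀ j| := by
    intro q hq H hH0 hH
    set c : Fin m → Fin n → ℤ := fun i j => if i = i₀ then q j else 0 with hc
    have hc0 : c ≠ 0 := by
      intro h
      apply hq
      funext j
      have := congrFun (congrFun h i₀) j
      simpa [hc] using this
    have := hbound c hc0 H hH0 (by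
      intro i j
      simp only [hc]
      split_ifs
      · exact hH j
      · simpa using hH0)
    have hsum : ∑ i, ∑ j, (c i j : ℝ) * B i j = ∑ j, (q j : ℝ) * B i₀ j := by
      rw [Finset.sum_eq_single i₀]
      · simp [hc]
      · intro i _ hi
        apply Finset.sum_eq_zero
        intro j _
        simp [hc, hi]
      · intro h; exact absurd (Finset.mem_univ _) h
    rwa [hsum] at this
  refine ⟨fun A => A i₀ j₀ • B, ?_, ?_, ?_, ?_⟩
  · have : Continuous (fun A : Matrix (Fin m) (Fin n) ℝ => A i₀ j₀) :=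
      continuous_id.matrix_elem i₀ j₀
    exact this.smul continuous_const
  · -- strongly nowhere constant
    intro R₁ R₂ T hR₁ hR₂ i j U hU hne
    rintro ⟨v, hv⟩
    obtain ⟨A, hA, A', hA', hneq⟩ := two_values i₀ j₀ hU hne
    set w : ℝ := (R₁.map (fun x : ℚ => (x : ℝ)) * B * R₂.map (fun x : ℚ => (x : ℝ))) i j with hw
    have hval : ∀ A : Matrix (Fin m) (Fin n) ℝ,
        (R₁.map (fun x : ℚ => (x : ℝ)) * (A i₀ j₀ • B) * R₂.map (fun x : ℚ => (x : ℝ)) +
          T.map (fun x : ℚ => (x : ℝ))) i j = A i₀ j₀ * w + (T i j : ℝ) := by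
      intro A
      rw [Matrix.add_apply, Matrix.mul_smul, Matrix.smul_mul, Matrix.smul_apply, smul_eq_mul]
      rfl
    have h1 := hv A hA
    have h2 := hv A' hA'
    simp only at h1 h2
    rw [hval] at h1 h2
    have h3 : (A i₀ j₀ - A' i₀ j₀) * w = 0 := by linarith
    rcases mul_eq_zero.1 h3 with h4 | h4
    · exact hneq (by linarith)
    · -- `w ≠ 0`
      have hrow_ne : ∃ k, R₁ i k ≠ 0 := by
        by_contra hall
        push Not at hall
        have hdet : R₁.det = 0 := Matrix.det_eq_zero_of_row_eq_zero i hall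
        rw [Matrix.isUnit_iff_isUnit_det, hdet] at hR₁
        simp at hR₁
      have hcol_ne : ∃ l, R₂ l j ≠ 0 := by
        by_contra hall
        push Not at hall
        have hdet : R₂.det = 0 := Matrix.det_eq_zero_of_column_eq_zero j hall
        rw [Matrix.isUnit_iff_isUnit_det, hdet] at hR₂
        simp at hR₂
      obtain ⟨k, hk⟩ := hrow_ne
      obtain ⟨l, hl⟩ := hcol_ne
      set c : Fin m → Fin n → ℚ := fun a b => R₁ i a * R₂ b j with hc
      have hc0 : c ≠ 0 := by
        intro h
        have := congrFun (congrFun h k) l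
        simp only [hc, Pi.zero_apply, mul_eq_zero] at this
        rcases this with h | h
        · exact hk h
        · exact hl h
      apply hindep c hc0
      rw [← h4, hw, Matrix.mul_apply]
      rw [Finset.sum_comm]
      apply Finset.sum_congr rfl
      intro b _
      rw [Matrix.mul_apply, Finset.sum_mul]
      apply Finset.sum_congr rfl
      intro a _
      simp only [hc, Matrix.map_apply]
      push_cast
      ring
  · -- LIC
    rintro Ω hΩ ⟨p, q, hq, hall⟩
    obtain ⟨A, hA, A', hA', hneq⟩ := two_values i₀ j₀ isOpen_interior hΩ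
    have h1 := congrFun (hall _ ⟨A, interior_subset hA, rfl⟩) i₀
    have h2 := congrFun (hall _ ⟨A', interior_subset hA', rfl⟩) i₀
    simp only [Matrix.smul_mulVec, Pi.smul_apply, smul_eq_mul] at h1 h2
    have h3 : (A i₀ j₀ - A' i₀ j₀) * (B.mulVec (fun j => (q j : ℝ)) i₀) = 0 := by linarith
    rcases mul_eq_zero.1 h3 with h4 | h4
    · exact hneq (by linarith)
    · have h5 : B.mulVec (fun j => (q j : ℝ)) i₀ = ∑ j, (q j : ℝ) * B i₀ j := by
        change ∑ j, B i₀ j * (q j : ℝ) = _
        exact Finset.sum_congr rfl (fun j _ => mul_comm _ _)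
      rw [h5] at h4
      have h6 := hrow q hq ‖(fun j => (q j : ℝ))‖ (norm_nonneg _)
        (fun j => coord_le (fun j => (q j : ℝ)) j)
      rw [h4, abs_zero, mul_zero] at h6
      linarith
  · -- not Liouville
    intro A
    set lam : ℝ := A i₀ j₀ with hlam
    change ¬ IsLiouvilleMatrix (lam • B)
    by_cases h0 : lam = 0
    · rintro ⟨h1, -⟩
      rw [h0, zero_smul] at h1
      apply h1 (Pi.single j₀ 1) 0
      · left
        intro h
        have := congrFun h j₀
        simp at this
      · rw [Matrix.zero_mulVec]; funext i; simp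
    · -- the bound
      have hlam0 : 0 < |lam| := abs_pos.2 h0
      set Cl : ℝ := 2 * n * |lam| + 1 with hCl
      have hCl1 : 1 ≤ Cl := by rw [hCl]; have : 0 ≤ 2 * n * |lam| := by positivity
                               linarith
      set c₀ : ℝ := min (|lam| / K) (1 / (4 * n * K * Cl ^ κ)) with hc₀
      have hn0 : (0 : ℝ) < n := by exact_mod_cast hn
      have hK0 : 0 < K := by linarith
      have hc₀pos : 0 < c₀ := lt_min (by positivity) (by positivity)
      have hc₀lam : c₀ ≤ |lam| / K := min_le_left _ _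
      have hc₀two : c₀ ≤ 1 / (4 * n * K * Cl ^ κ) := min_le_right _ _
      apply not_liouville_of_bound (c := min c₀ 1) (lt_min hc₀pos one_pos) (E := 2 * κ + 1)
      intro p q hqn
      set H := ‖(fun j => (q j : ℝ))‖ with hH
      have hH2 : 2 ≤ H := hqn
      have hH0 : 0 < H := by linarith
      have hq : q ≠ 0 := by
        intro h
        rw [h] at hH
        have : (fun j : Fin n => (((0 : Fin n → ℤ) j : ℤ) : ℝ)) = 0 := by funext j; simp
        rw [this, norm_zero] at hH
        linarith
      set e : Fin m → ℝ := (lam • B).mulVec (fun j => (q j : ℝ)) - (fun i => (p i : ℝ)) with he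
      set b : Fin m → ℝ := fun i => ∑ j, (q j : ℝ) * B i j with hb
      have hei : ∀ i, e i = lam * b i - p i := by
        intro i
        rw [he, Pi.sub_apply, Matrix.smul_mulVec, Pi.smul_apply, smul_eq_mul]
        congr 2
        change ∑ j, B i j * (q j : ℝ) = _
        exact Finset.sum_congr rfl (fun j _ => mul_comm _ _)
      have hqj : ∀ j, |(q j : ℝ)| ≤ H := fun j => coord_le (fun j => (q j : ℝ)) j
      have hbi : ∀ i, |b i| ≤ 2 * n * H := by
        intro i
        calc |b i| ≤ ∑ j, |(q j : ℝ) * B i j| := Finset.abs_sum_le_sum_abs _ _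
          _ ≤ ∑ _j : Fin n, H * 2 := by
            apply Finset.sum_le_sum
            intro j _
            rw [abs_mul, abs_of_nonneg (by linarith [hB1 i j] : 0 ≤ B i j)]
            exact mul_le_mul (hqj j) (hB2 i j) (by linarith [hB1 i j]) hH0.le
          _ = 2 * n * H := by rw [Finset.sum_const, Finset.card_univ, Fintype.card_fin,
                nsmul_eq_mul]; ring
      by_cases he1 : 1 ≤ ‖e‖
      · have h2 : (1 : ℝ) ≤ H ^ (2 * κ + 1) := one_le_pow₀ (by linarith)
        calc min c₀ 1 ≤ 1 * 1 := by rw [one_mul]; exact min_le_right _ _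
          _ ≤ H ^ (2 * κ + 1) * ‖e‖ := mul_le_mul h2 he1 (by norm_num) (by positivity)
      · push Not at he1
        refine (min_le_left _ _).trans ?_
        by_cases hp : p i₀ = 0 ∧ p i₁ = 0
        · -- both components zero
          have h1 : |lam * b i₀| ≤ ‖e‖ := by
            have := coord_le e i₀
            rw [hei i₀, hp.1] at this
            simpa using this
          have h2 := hrow q hq H hH0.le hqj
          have h3 : |lam| ≤ K * H ^ κ * ‖e‖ := by
            rw [abs_mul] at h1
            calc |lam| = |lam| * 1 := (mul_one _).symm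
              _ ≤ |lam| * (K * H ^ κ * |b i₀|) := mul_le_mul_of_nonneg_left h2 hlam0.le
              _ = K * H ^ κ * (|lam| * |b i₀|) := by ring
              _ ≤ K * H ^ κ * ‖e‖ := mul_le_mul_of_nonneg_left h1 (by positivity)
          have h4 : H ^ κ ≤ H ^ (2 * κ + 1) := pow_le_pow_right₀ (by linarith) (by omega)
          calc c₀ ≤ |lam| / K := hc₀lam
            _ ≤ H ^ κ * ‖e‖ := by rw [div_le_iff₀ hK0]; linarith
            _ ≤ H ^ (2 * κ + 1) * ‖e‖ := mul_le_mul_of_nonneg_right h4 (norm_nonneg _)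
        · -- some component nonzero
          set c : Fin m → Fin n → ℤ := fun i j =>
            if i = i₀ then p i₁ * q j else if i = i₁ then -(p i₀ * q j) else 0 with hc
          obtain ⟨j₁, hj₁⟩ : ∃ j, q j ≠ 0 := by
            by_contra hall
            push Not at hall
            exact hq (funext hall)
          have hc0 : c ≠ 0 := by
            intro h
            apply hp
            have h1 := congrFun (congrFun h i₁) j₁
            have h2 := congrFun (congrFun h i₀) j₁
            simp only [hc, if_neg hi01.symm, if_pos, Pi.zero_apply, neg_eq_zero, mul_eq_zero] at h1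
            simp only [hc, if_pos, Pi.zero_apply, mul_eq_zero] at h2
            exact ⟨h1.resolve_right hj₁, h2.resolve_right hj₁⟩
          have hsum : ∑ i, ∑ j, (c i j : ℝ) * B i j = e i₀ * b i₁ - e i₁ * b i₀ := by
            have h1 : ∑ i, ∑ j, (c i j : ℝ) * B i j = p i₁ * b i₀ - p i₀ * b i₁ := by
              have h2 : ∀ i, ∑ j, (c i j : ℝ) * B i j =
                  (if i = i₀ then (p i₁ : ℝ) * b i₀ else 0) +
                    (if i = i₁ then -((p i₀ : ℝ) * b i₁) else 0) := by
                intro i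
                by_cases hi : i = i₀
                · subst hi
                  rw [if_pos rfl, if_neg hi01, add_zero, hb, Finset.mul_sum]
                  apply Finset.sum_congr rfl
                  intro j _
                  simp only [hc, if_pos]
                  push_cast; ring
                · by_cases hi' : i = i₁
                  · subst hi'
                    rw [if_neg hi, if_pos rfl, zero_add, hb, Finset.mul_sum,
                      ← Finset.sum_neg_distrib]
                    apply Finset.sum_congr rfl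
                    intro j _
                    simp only [hc, if_neg hi, if_pos]
                    push_cast; ring
                  · rw [if_neg hi, if_neg hi', add_zero]
                    apply Finset.sum_eq_zero
                    intro j _
                    simp only [hc, if_neg hi, if_neg hi']
                    simp
              rw [Finset.sum_congr rfl (fun i _ => h2 i), Finset.sum_add_distrib,
                Finset.sum_ite_eq' , Finset.sum_ite_eq', if_pos (Finset.mem_univ _),
                if_pos (Finset.mem_univ _)]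
              ring
            rw [h1, hei, hei]; ring
          have hpn : ∀ i, |(p i : ℝ)| ≤ Cl * H := by
            intro i
            have h1 : (p i : ℝ) = lam * b i - e i := by rw [hei]; ring
            rw [h1]
            calc |lam * b i - e i| ≤ |lam * b i| + |e i| := abs_sub _ _
              _ ≤ |lam| * (2 * n * H) + 1 := by
                rw [abs_mul]
                have h2 := coord_le e i
                have h3 := mul_le_mul_of_nonneg_left (hbi i) hlam0.le
                linarith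
              _ ≤ Cl * H := by rw [hCl]; nlinarith
          have h1 := hbound c hc0 (Cl * H * H) (by positivity) (by
            intro i j
            simp only [hc]
            split_ifs
            · push_cast; rw [abs_mul]
              exact mul_le_mul (hpn _) (hqj _) (abs_nonneg _) (by positivity)
            · push_cast; rw [abs_neg, abs_mul]
              exact mul_le_mul (hpn _) (hqj _) (abs_nonneg _) (by positivity)
            · simp; positivity)
          rw [hsum] at h1
          have h2 : |e i₀ * b i₁ - e i₁ * b i₀| ≤ 4 * n * H * ‖e‖ := by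
            calc |e i₀ * b i₁ - e i₁ * b i₀| ≤ |e i₀ * b i₁| + |e i₁ * b i₀| := abs_sub _ _
              _ = |e i₀| * |b i₁| + |e i₁| * |b i₀| := by rw [abs_mul, abs_mul]
              _ ≤ ‖e‖ * (2 * n * H) + ‖e‖ * (2 * n * H) := by
                gcongr
                · exact coord_le e _
                · exact hbi _
                · exact coord_le e _
                · exact hbi _
              _ = 4 * n * H * ‖e‖ := by ring
          have h3 : (1 : ℝ) ≤ K * (Cl * H * H) ^ κ * (4 * n * H * ‖e‖) :=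
            h1.trans (mul_le_mul_of_nonneg_left h2 (by positivity))
          have h4 : K * (Cl * H * H) ^ κ * (4 * n * H * ‖e‖) =
              (4 * n * K * Cl ^ κ) * (H ^ (2 * κ + 1) * ‖e‖) := by
            rw [mul_pow, mul_pow, pow_add, pow_mul, pow_two, mul_pow]; ring
          rw [h4] at h3
          refine hc₀two.trans ?_
          rw [div_le_iff₀ (by positivity)]
          linarith

/-- **Answer to Q1.**  A pair `(m, n)` of positive integers is admissible if and only if
`m ≥ 2`. -/
theorem result (m n : ℕ) (hm : 1 ≤ m) (hn : 1 ≤ n) : Admissible m n ↔ 2 ≤ m := by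
  constructor
  · intro h
    by_contra hlt
    have h1 : m = 1 := by omega
    subst h1
    exact not_admissible_one hn h
  · intro h
    exact admissible_of_two_le h hn

end Pool.Agent.Results.MP_6d7a61_nt.AdmissiblePairs
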